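import Mathlib

set_option autoImplicit false
open Filter

namespace Pool.Agent.LeadMultibrot

/-- `z ^ n + c` has an attracting cycle. -/
def HasAttr (n : ℕ) (c : ℂ) : Prop :=
  ∃ z : ℂ, ∃ k : ℕ, 0 < k ∧ (fun w : ℂ => w ^ n + c)^[k] z = z ∧
    ‖deriv ((fun w : ℂ => w ^ n + c)^[k]) z‖ < 1

lemma hasDerivAt_f (n : ℕ) (c z : ℂ) :
    HasDerivAt (fun w : ℂ => w ^ n + c) ((n : ℂ) * z ^ (n - 1)) z := by
  simpa using (hasDerivAt_pow n z).add_const c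

lemma hasAttr_one {n : ℕ} {c z : ℂ} (h : z ^ n + c = z)
    (hm : (n : ℝ) * ‖z‖ ^ (n - 1) < 1) : HasAttr n c := by
  refine ⟨z, 1, one_pos, by simpa using h, ?_⟩
  rw [Function.iterate_one, (hasDerivAt_f n c z).deriv]
  simpa using hm

lemma hasAttr_two {n : ℕ} {c z y : ℂ} (h : z ^ n + c = y) (h' : y ^ n + c = z)
    (hm : (n : ℝ) ^ 2 * (‖z‖ * ‖y‖) ^ (n - 1) < 1) : HasAttr n c := by
  refine ⟨z, 2, two_pos, by simp [h, h'], ?_⟩
  have h2 : (fun w : ℂ => w ^ n + c)^[2] = (fun w : ℂ => w ^ n + c) ∘ (fun w : ℂ => w ^ n + c) := by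
    ext w; simp
  have h1 := hasDerivAt_f n c z
  have h3 : HasDerivAt (fun w : ℂ => w ^ n + c) ((n : ℂ) * y ^ (n - 1))
      ((fun w : ℂ => w ^ n + c) z) := by
    have := hasDerivAt_f n c y
    simpa [h] using this
  have h4 := HasDerivAt.comp z h3 h1
  rw [h2, h4.deriv]
  have : ‖(n : ℂ) * y ^ (n - 1) * ((n : ℂ) * z ^ (n - 1))‖ =
      (n : ℝ) ^ 2 * (‖z‖ * ‖y‖) ^ (n - 1) := by
    simp only [norm_mul, norm_pow, Complex.norm_natCast, mul_pow]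
    ring
  rw [this]
  exact hm

/-- Escape lemma. -/
lemma escape {n : ℕ} (hn : 2 ≤ n) {c z : ℂ} (hz : ‖c‖ ≤ ‖z‖) (h2 : 2 < ‖z‖ ^ (n - 1)) :
    Tendsto (fun k : ℕ => ‖(fun w : ℂ => w ^ n + c)^[k] z‖) atTop atTop := by
  set q : ℝ := ‖z‖ ^ (n - 1) - 1 with hq
  have hq1 : 1 < q := by rw [hq]; linarith
  have hzpos : 0 < ‖z‖ := by
    rcases (norm_nonneg z).eq_or_lt with h | h
    · rw [← h, zero_pow (by omega)] at h2; linarith
    · exact h
  have key : ∀ k : ℕ, ‖z‖ * q ^ k ≤ ‖(fun w : ℂ => w ^ n + c)^[k] z‖ := by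
    intro k
    induction k with
    | zero => simp
    | succ k ih =>
      rw [Function.iterate_succ_apply']
      set v := (fun w : ℂ => w ^ n + c)^[k] z with hv
      have hzv : ‖z‖ ≤ ‖v‖ := by
        refine le_trans ?_ ih
        have : (1 : ℝ) ≤ q ^ k := one_le_pow₀ hq1.le
        nlinarith
      have h3 : ‖v ^ n‖ - ‖c‖ ≤ ‖v ^ n + c‖ := by
        have := norm_sub_le (v ^ n + c) c
        simp only [add_sub_cancel_right] at this
        linarith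
      have h4 : ‖v ^ n‖ = ‖v‖ * ‖v‖ ^ (n - 1) := by
        rw [norm_pow, ← pow_succ']
        congr 1; omega
      have h5 : ‖z‖ ^ (n - 1) ≤ ‖v‖ ^ (n - 1) := pow_le_pow_left₀ hzpos.le hzv _
      have h6 : ‖v‖ * q ≤ ‖v ^ n + c‖ := by
        calc ‖v‖ * q = ‖v‖ * ‖z‖ ^ (n - 1) - ‖v‖ := by rw [hq]; ring
          _ ≤ ‖v‖ * ‖v‖ ^ (n - 1) - ‖c‖ := by
              have := mul_le_mul_of_nonneg_left h5 (norm_nonneg v)
              linarith [hz.trans hzv]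
          _ ≤ _ := by rw [← h4]; exact h3
      calc ‖z‖ * q ^ (k + 1) = (‖z‖ * q ^ k) * q := by ring
        _ ≤ ‖v‖ * q := by
            exact mul_le_mul_of_nonneg_right ih (by linarith)
        _ ≤ _ := h6
  refine tendsto_atTop_mono key ?_
  exact Tendsto.const_mul_atTop hzpos (tendsto_pow_atTop_atTop_of_one_lt hq1)

lemma escape_zero {n : ℕ} (hn : 2 ≤ n) {c : ℂ} (m : ℕ)
    (hz : ‖c‖ ≤ ‖(fun w : ℂ => w ^ n + c)^[m] 0‖)
    (h2 : 2 < ‖(fun w : ℂ => w ^ n + c)^[m] 0‖ ^ (n - 1)) :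
    Tendsto (fun k : ℕ => ‖(fun w : ℂ => w ^ n + c)^[k] 0‖) atTop atTop := by
  have h := escape hn hz h2
  rw [← tendsto_add_atTop_iff_nat m]
  refine h.congr (fun k => ?_)
  rw [Function.iterate_add_apply]

/-- every parameter of the multibrot set has `‖c‖ ^ (n - 1) ≤ 2`. -/
lemma norm_pow_le_two {n : ℕ} (hn : 2 ≤ n) {c : ℂ}
    (hc : ¬ Tendsto (fun k : ℕ => ‖(fun z : ℂ => z ^ n + c)^[k] 0‖) atTop atTop) :
    ‖c‖ ^ (n - 1) ≤ 2 := by
  by_contra h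
  push Not at h
  apply hc
  have h1 : (fun w : ℂ => w ^ n + c)^[1] 0 = c := by
    simp [show n ≠ 0 by omega]
  refine escape_zero hn 1 ?_ ?_
  · rw [h1]
  · rw [h1]; exact h

end Pool.Agent.LeadMultibrot
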