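import Mathlib

set_option autoImplicit false
open Filter

namespace Pool.Agent.LeadMultibrot

lemma strict_bern (n : ℕ) (hn : 1 ≤ n) (s : ℝ) (hs : 0 ≤ s) (hs1 : s ≠ 1) :
    s ^ n * ((n : ℝ) + 1 - n * s) < 1 := by
  rcases hs.eq_or_lt with h0 | h0
  · rw [← h0, zero_pow (by omega)]; simp
  · have hv : (s⁻¹ - 1) ≠ 0 := by
      intro h
      apply hs1
      have : s⁻¹ = 1 := by linarith
      exact inv_eq_one.mp this
    have hp : (1 : ℝ) < (n : ℝ) + 1 := by
      have : (1 : ℝ) ≤ n := by exact_mod_cast hn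
      linarith
    have hb := one_add_mul_self_lt_rpow_one_add (s := s⁻¹ - 1) (by
      have := inv_pos.mpr h0; linarith) hv hp
    have h1 : (1 + (s⁻¹ - 1) : ℝ) ^ ((n : ℝ) + 1) = (s ^ (n + 1))⁻¹ := by
      rw [show (1 + (s⁻¹ - 1) : ℝ) = s⁻¹ by ring, show ((n : ℝ) + 1) = ((n + 1 : ℕ) : ℝ) by push_cast; ring,
        Real.rpow_natCast, inv_pow]
    rw [h1] at hb
    have hpos : 0 < s ^ (n + 1) := pow_pos h0 _
    have h2 := mul_lt_mul_of_pos_left hb hpos
    rw [mul_inv_cancel₀ hpos.ne'] at h2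
    have h3 : s ^ (n + 1) * (1 + ((n : ℝ) + 1) * (s⁻¹ - 1)) = s ^ n * ((n : ℝ) + 1 - n * s) := by
      rw [pow_succ]
      field_simp
      ring
    rwa [h3] at h2

lemma max_lt (n : ℕ) (hn : 1 ≤ n) (t : ℝ) (ht1 : t ≤ 1) (ht : t ≠ 1 / ((n : ℝ) + 1)) :
    t * (1 - t) ^ n < (1 / ((n : ℝ) + 1)) * ((n : ℝ) / (n + 1)) ^ n := by
  have hn0 : (0 : ℝ) < n := by exact_mod_cast hn
  set s : ℝ := (1 - t) * ((n : ℝ) + 1) / n with hs
  have hs0 : 0 ≤ s := by
    rw [hs]; apply div_nonneg _ hn0.le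
    apply mul_nonneg <;> linarith
  have hs1 : s ≠ 1 := by
    intro h
    apply ht
    rw [hs] at h
    field_simp at h ⊢
    linarith
  have hb := strict_bern n hn s hs0 hs1
  have h1 : (1 - t) = (n : ℝ) / (n + 1) * s := by
    rw [hs]; field_simp
  have h2 : t = (1 / ((n : ℝ) + 1)) * ((n : ℝ) + 1 - n * s) := by
    rw [hs]; field_simp; ring
  have h3 : t * (1 - t) ^ n =
      ((1 / ((n : ℝ) + 1)) * ((n : ℝ) / (n + 1)) ^ n) * (s ^ n * ((n : ℝ) + 1 - n * s)) := by
    rw [h1]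
    conv_lhs => rw [h2]
    rw [mul_pow]; ring
  rw [h3]
  have hpos : 0 < (1 / ((n : ℝ) + 1)) * ((n : ℝ) / (n + 1)) ^ n := by positivity
  nlinarith

/-- The critical parameter at which the fixed point becomes neutral. -/
noncomputable def aOne (n : ℕ) : ℝ := (1 / ((n : ℝ) + 1)) * (((n : ℝ) + 1) / n) ^ n

lemma aOne_mul (n : ℕ) (hn : 1 ≤ n) : aOne n * ((n : ℝ) / (n + 1)) ^ n = 1 / ((n : ℝ) + 1) := by
  have hn0 : (0 : ℝ) < n := by exact_mod_cast hn
  rw [aOne, mul_assoc, ← mul_pow]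
  have : (((n : ℝ) + 1) / n * ((n : ℝ) / (n + 1))) = 1 := by field_simp
  rw [this, one_pow, mul_one]

lemma aOne_pos (n : ℕ) (hn : 1 ≤ n) : 0 < aOne n := by
  have hn0 : (0 : ℝ) < n := by exact_mod_cast hn
  rw [aOne]; positivity

lemma exists_fixed (n : ℕ) (hn : 1 ≤ n) (a : ℝ) (ha0 : 0 < a) (ha : a < aOne n) :
    ∃ x : ℝ, (n : ℝ) / (n + 1) < x ∧ x < 1 ∧ 1 - a * x ^ n = x := by
  have hn0 : (0 : ℝ) < n := by exact_mod_cast hn
  have hx1 : (n : ℝ) / (n + 1) < 1 := by rw [div_lt_one (by linarith)]; linarith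
  have hcont : ContinuousOn (fun x : ℝ => 1 - a * x ^ n - x) (Set.Icc ((n : ℝ) / (n + 1)) 1) := by
    fun_prop
  have himg := intermediate_value_Ioo' hx1.le hcont
  have h0 : (0 : ℝ) ∈ Set.Ioo ((fun x : ℝ => 1 - a * x ^ n - x) 1)
      ((fun x : ℝ => 1 - a * x ^ n - x) ((n : ℝ) / (n + 1))) := by
    constructor
    · simp only [one_pow]; linarith
    · have h1 := aOne_mul n hn
      have h2 : a * ((n : ℝ) / (n + 1)) ^ n < aOne n * ((n : ℝ) / (n + 1)) ^ n :=
        mul_lt_mul_of_pos_right ha (by positivity)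
      rw [h1] at h2
      have h3 : (n : ℝ) / (n + 1) = 1 - 1 / ((n : ℝ) + 1) := by field_simp; ring
      simp only
      linarith
  obtain ⟨x, hx, hx'⟩ := himg h0
  simp only at hx'
  exact ⟨x, hx.1, hx.2, by linarith⟩

lemma exists_two (n : ℕ) (hn : 1 ≤ n) (a : ℝ) (ha : aOne n < a) (ha1 : a < 1) :
    ∃ x y : ℝ, 0 < x ∧ x < (n : ℝ) / (n + 1) ∧ (n : ℝ) / (n + 1) < y ∧ y < 1 ∧
      1 - a * x ^ n = y ∧ 1 - a * y ^ n = x := by
  have hn0 : (0 : ℝ) < n := by exact_mod_cast hn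
  have ha0 : 0 < a := (aOne_pos n hn).trans ha
  have hx1 : (n : ℝ) / (n + 1) < 1 := by rw [div_lt_one (by linarith)]; linarith
  have hx0 : 0 < (n : ℝ) / (n + 1) := by positivity
  have hcont : ContinuousOn (fun y : ℝ => 1 - a * (1 - a * y ^ n) ^ n - y)
      (Set.Icc ((n : ℝ) / (n + 1)) 1) := by
    fun_prop
  have himg := intermediate_value_Ioo' hx1.le hcont
  set t : ℝ := a * ((n : ℝ) / (n + 1)) ^ n with ht
  have ht_gt : 1 / ((n : ℝ) + 1) < t := by
    rw [← aOne_mul n hn, ht]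
    exact mul_lt_mul_of_pos_right ha (by positivity)
  have hpow1 : ((n : ℝ) / (n + 1)) ^ n ≤ 1 := pow_le_one₀ hx0.le hx1.le
  have ht_le : t ≤ 1 := by
    rw [ht]; nlinarith [pow_pos hx0 n]
  have hmax := max_lt n hn t ht_le ht_gt.ne'
  have h0 : (0 : ℝ) ∈ Set.Ioo ((fun y : ℝ => 1 - a * (1 - a * y ^ n) ^ n - y) 1)
      ((fun y : ℝ => 1 - a * (1 - a * y ^ n) ^ n - y) ((n : ℝ) / (n + 1))) := by
    constructor
    · simp only [one_pow, mul_one]
      have : 0 < a * (1 - a) ^ n := mul_pos ha0 (pow_pos (by linarith) _)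
      linarith
    · simp only
      rw [← ht]
      have h3 : (n : ℝ) / (n + 1) = 1 - 1 / ((n : ℝ) + 1) := by field_simp; ring
      have h4 : a * (1 - t) ^ n < 1 / ((n : ℝ) + 1) := by
        have h5 : t * (1 - t) ^ n = ((n : ℝ) / (n + 1)) ^ n * (a * (1 - t) ^ n) := by
          rw [ht]; ring
        rw [h5, mul_comm (1 / ((n : ℝ) + 1))] at hmax
        exact lt_of_mul_lt_mul_left hmax (by positivity)
      linarith
  obtain ⟨y, hy, hy'⟩ := himg h0
  simp only at hy'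
  have hyn : ((n : ℝ) / (n + 1)) ^ n < y ^ n := pow_lt_pow_left₀ hy.1 hx0.le (by omega)
  have hy1 : y ^ n ≤ 1 := pow_le_one₀ (hx0.le.trans hy.1.le) hy.2.le
  refine ⟨1 - a * y ^ n, y, ?_, ?_, hy.1, hy.2, by linarith, rfl⟩
  · nlinarith
  · have h6 : t < a * y ^ n := by rw [ht]; exact mul_lt_mul_of_pos_left hyn ha0
    have h3 : (n : ℝ) / (n + 1) = 1 - 1 / ((n : ℝ) + 1) := by field_simp; ring
    linarith

lemma G_ineq (n : ℕ) (hn : 2 ≤ n) (P : ℝ) (hP : 1 < P) :
    ((n : ℝ) * P + 1) ^ (n + 1) < P ^ (n - 1) * ((n : ℝ) + P) ^ (n + 1) := by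
  have hn2 : (2 : ℝ) ≤ n := by exact_mod_cast hn
  have hn1 : ((n - 1 : ℕ) : ℝ) = (n : ℝ) - 1 := by
    rw [Nat.cast_sub (by omega)]; simp
  let G : ℝ → ℝ := fun P => ((n : ℝ) - 1) * Real.log P + ((n : ℝ) + 1) * Real.log ((n : ℝ) + P)
    - ((n : ℝ) + 1) * Real.log ((n : ℝ) * P + 1)
  have hder : ∀ x : ℝ, 1 ≤ x → HasDerivAt G (((n : ℝ) - 1) * (1 / x) + ((n : ℝ) + 1) * (1 / ((n : ℝ) + x))
      - ((n : ℝ) + 1) * ((n : ℝ) / ((n : ℝ) * x + 1))) x := by
    intro x hx
    have hx0 : 0 < x := by linarith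
    have h1 : HasDerivAt (fun P : ℝ => Real.log P) (1 / x) x := (hasDerivAt_id x).log hx0.ne'
    have h2 : HasDerivAt (fun P : ℝ => Real.log ((n : ℝ) + P)) (1 / ((n : ℝ) + x)) x :=
      ((hasDerivAt_id x).const_add (n : ℝ)).log (by simp only [id]; positivity)
    have h3 : HasDerivAt (fun P : ℝ => Real.log ((n : ℝ) * P + 1)) ((n : ℝ) / ((n : ℝ) * x + 1)) x := by
      have := (((hasDerivAt_id x).const_mul (n : ℝ)).add_const 1).log (by simp only [id]; positivity)
      simpa using this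
    exact ((h1.const_mul _).add (h2.const_mul _)).sub (h3.const_mul _)
  have hcont : ContinuousOn G (Set.Ici 1) := fun x hx => (hder x hx).continuousAt.continuousWithinAt
  have hmono : StrictMonoOn G (Set.Ici 1) := by
    apply strictMonoOn_of_deriv_pos (convex_Ici 1) hcont
    intro x hx
    rw [interior_Ici] at hx
    have hx1 : 1 < x := hx
    have hx0 : 0 < x := by linarith
    rw [(hder x hx1.le).deriv]
    have : ((n : ℝ) - 1) * (1 / x) + ((n : ℝ) + 1) * (1 / ((n : ℝ) + x))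
      - ((n : ℝ) + 1) * ((n : ℝ) / ((n : ℝ) * x + 1)) =
      (n : ℝ) * ((n : ℝ) - 1) * (x - 1) ^ 2 / (x * ((n : ℝ) + x) * ((n : ℝ) * x + 1)) := by
      have : (n : ℝ) + x ≠ 0 := by positivity
      field_simp
      ring
    rw [this]
    apply div_pos
    · apply mul_pos (mul_pos (by linarith) (by linarith))
      have : x - 1 ≠ 0 := by linarith
      positivity
    · positivity
  have hG : G 1 < G P := hmono (Set.mem_Ici.mpr le_rfl) (Set.mem_Ici.mpr hP.le) hP
  have hG1 : G 1 = 0 := by simp [G]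
  rw [hG1] at hG
  have hP0 : 0 < P := by linarith
  rw [← Real.log_lt_log_iff (by positivity) (by positivity), Real.log_mul (by positivity) (by positivity),
    Real.log_pow, Real.log_pow, Real.log_pow, hn1]
  push_cast
  simp only [G] at hG
  linarith

lemma F_mono (n : ℕ) (hn : 1 ≤ n) (s t : ℝ) (hs : 0 < s) (hst : s ≤ t) (ht : t ≤ 1 / (n : ℝ)) :
    s * (1 + t) ^ (n + 1) ≤ t * (1 + s) ^ (n + 1) := by
  have hn0 : (0 : ℝ) < n := by exact_mod_cast hn
  let L : ℝ → ℝ := fun s => Real.log s - ((n : ℝ) + 1) * Real.log (1 + s)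
  have hder : ∀ x : ℝ, 0 < x → HasDerivAt L (1 / x - ((n : ℝ) + 1) * (1 / (1 + x))) x := by
    intro x hx0
    have h1 : HasDerivAt (fun P : ℝ => Real.log P) (1 / x) x := (hasDerivAt_id x).log hx0.ne'
    have h2 : HasDerivAt (fun P : ℝ => Real.log (1 + P)) (1 / (1 + x)) x :=
      ((hasDerivAt_id x).const_add (1 : ℝ)).log (by simp only [id]; positivity)
    exact h1.sub (h2.const_mul _)
  have hcont : ContinuousOn L (Set.Ioc 0 (1 / (n : ℝ))) :=
    fun x hx => (hder x hx.1).continuousAt.continuousWithinAt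
  have hmono : MonotoneOn L (Set.Ioc 0 (1 / (n : ℝ))) := by
    apply monotoneOn_of_deriv_nonneg (convex_Ioc 0 _) hcont
    · intro x hx
      rw [interior_Ioc] at hx
      exact (hder x hx.1).differentiableAt.differentiableWithinAt
    · intro x hx
      rw [interior_Ioc] at hx
      have hx0 : 0 < x := hx.1
      have hx1 : x < 1 / (n : ℝ) := hx.2
      rw [(hder x hx0).deriv]
      have : 1 / x - ((n : ℝ) + 1) * (1 / (1 + x)) = (1 - n * x) / (x * (1 + x)) := by
        field_simp; ring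
      rw [this]
      apply div_nonneg
      · rw [lt_div_iff₀ hn0] at hx1; linarith
      · positivity
  have ht0 : 0 < t := hs.trans_le hst
  have h := hmono ⟨hs, hst.trans ht⟩ ⟨ht0, ht⟩ hst
  rw [← Real.log_le_log_iff (by positivity) (by positivity), Real.log_mul (by positivity) (by positivity),
    Real.log_mul (by positivity) (by positivity), Real.log_pow, Real.log_pow]
  push_cast
  simp only [L] at h
  linarith

/-- The multiplier of the real two-cycle is less than one in modulus. -/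
lemma mult_two (n : ℕ) (hn : 2 ≤ n) (a x y : ℝ) (ha : 0 < a) (hx0 : 0 < x)
    (hx : x < (n : ℝ) / (n + 1)) (hy1 : y < 1)
    (hy : (n : ℝ) / (n + 1) < y) (h1 : 1 - a * x ^ n = y) (h2 : 1 - a * y ^ n = x) :
    (n : ℝ) ^ 2 * (1 - x) * (1 - y) < x * y := by
  have hn0 : (0 : ℝ) < n := by
    have : (2 : ℝ) ≤ n := by exact_mod_cast hn
    linarith
  have hy0 : 0 < y := lt_trans (by positivity) hy
  -- p = (1-x)/x, q = (1-y)/y
  set p : ℝ := (1 - x) / x with hp
  set q : ℝ := (1 - y) / y with hq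
  have hx1 : x < 1 := hx.trans (by rw [div_lt_one (by linarith)]; linarith)
  have hpp : 0 < p := div_pos (by linarith) hx0
  have hqp : 0 < q := div_pos (by linarith) hy0
  have hxp : x = 1 / (1 + p) := by rw [hp]; field_simp; ring
  have hyq : y = 1 / (1 + q) := by rw [hq]; field_simp; ring
  have hp1 : 1 / (n : ℝ) < p := by
    rw [hp, div_lt_div_iff₀ hn0 hx0]
    rw [lt_div_iff₀ (by linarith)] at hx
    linarith
  have hq1 : q < 1 / (n : ℝ) := by
    rw [hq, div_lt_div_iff₀ hy0 hn0]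
    rw [div_lt_iff₀ (by linarith)] at hy
    linarith
  -- the relation p (1+q)^(n+1) = q (1+p)^(n+1)
  have hrel : (1 - x) * x ^ n = (1 - y) * y ^ n := by
    have e1 : 1 - x = a * y ^ n := by linarith
    have e2 : 1 - y = a * x ^ n := by linarith
    rw [e1, e2]; ring
  have hrel2 : p * (1 + q) ^ (n + 1) = q * (1 + p) ^ (n + 1) := by
    have e1 : 1 - x = p * x := by rw [hp]; field_simp
    have e2 : 1 - y = q * y := by rw [hq]; field_simp
    have e3 : p * x ^ (n + 1) = q * y ^ (n + 1) := by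
      calc p * x ^ (n + 1) = (p * x) * x ^ n := by ring
        _ = (q * y) * y ^ n := by rw [← e1, ← e2, hrel]
        _ = _ := by ring
    rw [hxp, hyq] at e3
    rw [one_div, one_div, inv_pow, inv_pow] at e3
    field_simp at e3
    linarith
  -- main claim
  have hmain : (n : ℝ) ^ 2 * p * q < 1 := by
    by_contra hcon
    push Not at hcon
    -- q ≥ 1/(n^2 p) =: s
    set s : ℝ := 1 / ((n : ℝ) ^ 2 * p) with hs
    have hspos : 0 < s := by rw [hs]; positivity
    have hsq : s ≤ q := by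
      rw [hs, div_le_iff₀ (by positivity)]; linarith
    have hF := F_mono n (by omega) s q hspos hsq hq1.le
    -- s (1+q)^(n+1) ≤ q (1+s)^(n+1)
    have hG := G_ineq n hn ((n : ℝ) * p) (by
      rw [div_lt_iff₀ hn0] at hp1; linarith)
    -- combine
    have h3 : s * (1 + p) ^ (n + 1) ≤ p * (1 + s) ^ (n + 1) := by
      -- multiply hF by p/q
      have h4 : s * (p * (1 + q) ^ (n + 1)) ≤ p * (q * (1 + s) ^ (n + 1)) := by
        calc s * (p * (1 + q) ^ (n + 1)) = p * (s * (1 + q) ^ (n + 1)) := by ring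
          _ ≤ _ := mul_le_mul_of_nonneg_left hF hpp.le
      rw [hrel2] at h4
      have h5 : q * (s * (1 + p) ^ (n + 1)) ≤ q * (p * (1 + s) ^ (n + 1)) := by
        calc q * (s * (1 + p) ^ (n + 1)) = s * (q * (1 + p) ^ (n + 1)) := by ring
          _ ≤ p * (q * (1 + s) ^ (n + 1)) := h4
          _ = _ := by ring
      exact le_of_mul_le_mul_left h5 hqp
    have h6 : (1 + s) = ((n : ℝ) * ((n : ℝ) * p) + 1) / ((n : ℝ) ^ 2 * p) := by
      rw [hs]; field_simp
    have h7 : (1 + p) = ((n : ℝ) + (n : ℝ) * p) / n := by field_simp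
    rw [h6, h7, hs, div_pow, div_pow] at h3
    have h8 : ((n : ℝ) * p) ^ (n - 1) * ((n : ℝ) + (n : ℝ) * p) ^ (n + 1)
        ≤ ((n : ℝ) * ((n : ℝ) * p) + 1) ^ (n + 1) := by
      obtain ⟨m, rfl⟩ : ∃ m, n = m + 1 := ⟨n - 1, by omega⟩
      set N : ℝ := ((m + 1 : ℕ) : ℝ) with hN
      set A : ℝ := (N + N * p) ^ (m + 1 + 1)
      set B : ℝ := (N * (N * p) + 1) ^ (m + 1 + 1)
      have h9 : 1 / (N ^ 2 * p) * (A / N ^ (m + 1 + 1)) ≤ p * (B / (N ^ 2 * p) ^ (m + 1 + 1)) := h3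
      have h10 : 0 < (N ^ 2 * p) ^ (m + 1 + 1) / p := by positivity
      have h11 := mul_le_mul_of_nonneg_left h9 h10.le
      have e1 : (N ^ 2 * p) ^ (m + 1 + 1) / p * (1 / (N ^ 2 * p) * (A / N ^ (m + 1 + 1))) =
          (N * p) ^ m * A := by
        have : (N ^ 2 * p) ^ (m + 1 + 1) = (N ^ 2 * p) * p * N * N ^ (m + 1) * (N * p) ^ m * 1 := by
          rw [mul_pow, mul_pow, ← pow_mul]
          ring
        rw [this]
        field_simp
        ring
      have e2 : (N ^ 2 * p) ^ (m + 1 + 1) / p * (p * (B / (N ^ 2 * p) ^ (m + 1 + 1))) = B := by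
        field_simp
      rw [e1, e2] at h11
      simpa using h11
    linarith
  have e4 : x * y * ((n : ℝ) ^ 2 * p * q) = (n : ℝ) ^ 2 * (1 - x) * (1 - y) := by
    rw [hp, hq]; field_simp
  rw [← e4]
  nlinarith [mul_pos hx0 hy0]

end Pool.Agent.LeadMultibrot
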