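import Mathlib
import Pool.Agent.lead.Multibrot
import Pool.Agent.lead.MultibrotReal

set_option autoImplicit false
open Filter

namespace Pool.Agent.LeadMultibrot

lemma neg_axis {n : ℕ} (hn : 2 ≤ n) {a : ℝ} (ha0 : 0 < a) (ha1 : a ≤ 1) (hane : a ≠ aOne n)
    {c : ℂ} (hc : c ^ (n - 1) = -(a : ℂ)) : HasAttr n c := by
  have hn0 : (0 : ℝ) < n := by
    have : (2 : ℝ) ≤ n := by exact_mod_cast hn
    linarith
  have hcn : ∀ x : ℝ, (c * (x : ℂ)) ^ n + c = c * ((1 - a * x ^ n : ℝ) : ℂ) := by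
    intro x
    have : c ^ n = c * c ^ (n - 1) := by rw [← pow_succ']; congr 1; omega
    rw [mul_pow, this, hc]
    push_cast; ring
  have hnorm : ‖c‖ ^ (n - 1) = a := by
    rw [← norm_pow, hc, norm_neg, Complex.norm_real, Real.norm_of_nonneg ha0.le]
  have hsucc : ∀ x : ℝ, x ^ n = x ^ (n - 1) * x := by
    intro x; rw [← pow_succ]; congr 1; omega
  rcases lt_or_gt_of_ne hane with hlt | hgt
  · obtain ⟨x, hx0, hx1, hx⟩ := exists_fixed n (by omega) a ha0 hlt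
    have hxpos : 0 < x := lt_trans (by positivity) hx0
    refine hasAttr_one (z := c * (x : ℂ)) (by rw [hcn, hx]) ?_
    rw [norm_mul, mul_pow, hnorm, Complex.norm_real, Real.norm_of_nonneg hxpos.le]
    rw [hsucc] at hx
    rw [div_lt_iff₀ (by linarith)] at hx0
    have h1 : (n : ℝ) * (a * x ^ (n - 1)) * x < 1 * x := by
      have h3 : a * (x ^ (n - 1) * x) = 1 - x := by linarith
      have : (n : ℝ) * (a * x ^ (n - 1)) * x = n * (1 - x) := by
        rw [← h3]; ring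
      rw [this]; linarith
    exact lt_of_mul_lt_mul_right h1 hxpos.le
  · rcases ha1.lt_or_eq with ha1 | ha1
    · obtain ⟨x, y, hx0, hx1, hy1, hy2, hxy, hyx⟩ := exists_two n (by omega) a hgt ha1
      have hy0 : 0 < y := lt_trans (by positivity) hy1
      have hm := mult_two n hn a x y ha0 hx0 hx1 hy2 hy1 hxy hyx
      refine hasAttr_two (z := c * (x : ℂ)) (y := c * (y : ℂ)) (by rw [hcn, hxy])
        (by rw [hcn, hyx]) ?_
      rw [norm_mul, norm_mul, Complex.norm_real, Complex.norm_real, Real.norm_of_nonneg hx0.le,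
        Real.norm_of_nonneg hy0.le]
      have h1 : (n : ℝ) ^ 2 * (‖c‖ * x * (‖c‖ * y)) ^ (n - 1) * (x * y)
          = (n : ℝ) ^ 2 * (1 - x) * (1 - y) := by
        have e1 : (‖c‖ * x * (‖c‖ * y)) ^ (n - 1) =
            (‖c‖ ^ (n - 1) * x ^ (n - 1)) * (‖c‖ ^ (n - 1) * y ^ (n - 1)) := by
          rw [mul_pow, mul_pow, mul_pow]
        rw [e1, hnorm]
        rw [hsucc] at hxy hyx
        have e2 : a * (x ^ (n - 1) * x) = 1 - y := by linarith
        have e3 : a * (y ^ (n - 1) * y) = 1 - x := by linarith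
        rw [← e2, ← e3]; ring
      have h2 : (n : ℝ) ^ 2 * (‖c‖ * x * (‖c‖ * y)) ^ (n - 1) * (x * y) < 1 * (x * y) := by
        rw [h1, one_mul]; exact hm
      exact lt_of_mul_lt_mul_right h2 (mul_pos hx0 hy0).le
    · refine hasAttr_two (z := 0) (y := c) ?_ ?_ ?_
      · simp [show n ≠ 0 by omega]
      · have : c ^ n = c * c ^ (n - 1) := by rw [← pow_succ']; congr 1; omega
        rw [this, hc, ha1]; push_cast; ring
      · rw [norm_zero, zero_mul, zero_pow (by omega), mul_zero]; exact one_pos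

lemma hasAttr_zero {n : ℕ} (hn : 2 ≤ n) : HasAttr n 0 := by
  refine hasAttr_one (z := 0) (by simp [show n ≠ 0 by omega]) ?_
  rw [norm_zero, zero_pow (by omega), mul_zero]; exact one_pos

/-- rotation to the negative axis. -/
lemma exists_rot {n : ℕ} (hn : 2 ≤ n) (c : ℂ) (r : ℝ) (hr0 : 0 < r) (hr1 : r ≤ 1) :
    ∃ c' : ℂ, c' ^ (n - 1) = -((r ^ (n - 1) : ℝ) : ℂ) ∧
      dist c' c ≤ Real.pi / ((n : ℝ) - 1) + |r - ‖c‖| := by
  have hn1 : (0 : ℝ) < (n : ℝ) - 1 := by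
    have : (2 : ℝ) ≤ n := by exact_mod_cast hn
    linarith
  have hnc : ((n - 1 : ℕ) : ℝ) = (n : ℝ) - 1 := by
    rw [Nat.cast_sub (by omega)]; simp
  set φ : ℝ := c.arg with hφ
  set m : ℤ := round ((((n : ℝ) - 1) * φ - Real.pi) / (2 * Real.pi)) with hm
  set ψ : ℝ := (Real.pi + 2 * Real.pi * m) / ((n : ℝ) - 1) with hψ
  have hround := abs_sub_round ((((n : ℝ) - 1) * φ - Real.pi) / (2 * Real.pi))
  rw [← hm] at hround
  have hdiff : |ψ - φ| ≤ Real.pi / ((n : ℝ) - 1) := by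
    have e1 : ψ - φ = -(((((n : ℝ) - 1) * φ - Real.pi) / (2 * Real.pi) - m)
        * (2 * Real.pi / ((n : ℝ) - 1))) := by
      rw [hψ]; field_simp; ring
    rw [e1, abs_neg, abs_mul, abs_of_pos (show 0 < 2 * Real.pi / ((n : ℝ) - 1) by positivity)]
    calc _ ≤ 1 / 2 * (2 * Real.pi / ((n : ℝ) - 1)) :=
          mul_le_mul_of_nonneg_right hround (by positivity)
      _ = _ := by ring
  refine ⟨(r : ℂ) * Complex.exp (Complex.I * (ψ : ℂ)), ?_, ?_⟩
  · rw [mul_pow, ← Complex.exp_nat_mul]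
    have e2 : ((n - 1 : ℕ) : ℂ) * (Complex.I * (ψ : ℂ)) =
        Real.pi * Complex.I + (m : ℂ) * (2 * Real.pi * Complex.I) := by
      have : (((n - 1 : ℕ) : ℝ) * ψ : ℝ) = Real.pi + 2 * Real.pi * m := by
        rw [hnc, hψ]; field_simp
      have h2 : (((n - 1 : ℕ) : ℝ) : ℂ) * (ψ : ℂ) = (Real.pi : ℂ) + 2 * Real.pi * m := by
        rw [← Complex.ofReal_mul, this]; push_cast; ring
      rw [Complex.ofReal_natCast] at h2
      calc ((n - 1 : ℕ) : ℂ) * (Complex.I * (ψ : ℂ)) = Complex.I * (((n - 1 : ℕ) : ℂ) * (ψ : ℂ)) := by ring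
        _ = _ := by rw [h2]; ring
    rw [e2, Complex.exp_add, Complex.exp_pi_mul_I]
    rw [show (m : ℂ) * (2 * Real.pi * Complex.I) = (m : ℂ) * (2 * (Real.pi : ℂ) * Complex.I) by ring,
      Complex.exp_int_mul_two_pi_mul_I]
    push_cast; ring
  · have hcpolar : (c : ℂ) = (‖c‖ : ℂ) * Complex.exp (Complex.I * (φ : ℂ)) := by
      rw [mul_comm Complex.I]; exact (Complex.norm_mul_exp_arg_mul_I c).symm
    rw [dist_eq_norm]
    have e3 : (r : ℂ) * Complex.exp (Complex.I * (ψ : ℂ)) - c =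
        (r : ℂ) * (Complex.exp (Complex.I * (φ : ℂ)) * (Complex.exp (Complex.I * ((ψ - φ : ℝ) : ℂ)) - 1))
        + ((r - ‖c‖ : ℝ) : ℂ) * Complex.exp (Complex.I * (φ : ℂ)) := by
      have h1 : Complex.exp (Complex.I * (φ : ℂ)) * Complex.exp (Complex.I * ((ψ - φ : ℝ) : ℂ)) =
          Complex.exp (Complex.I * (ψ : ℂ)) := by
        rw [← Complex.exp_add]; congr 1; push_cast; ring
      rw [mul_sub, h1]
      conv_lhs => rw [hcpolar]
      push_cast; ring
    rw [e3]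
    refine (norm_add_le _ _).trans ?_
    have hexpnorm : ‖Complex.exp (Complex.I * (φ : ℂ))‖ = 1 := by
      rw [mul_comm]; exact Complex.norm_exp_ofReal_mul_I φ
    apply add_le_add
    · rw [norm_mul, norm_mul, hexpnorm, one_mul, Complex.norm_real, Real.norm_of_nonneg hr0.le]
      have := Real.norm_exp_I_mul_ofReal_sub_one_le (x := ψ - φ)
      calc r * ‖Complex.exp (Complex.I * ((ψ - φ : ℝ) : ℂ)) - 1‖ ≤ 1 * ‖ψ - φ‖ :=
            mul_le_mul hr1 this (norm_nonneg _) zero_le_one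
        _ ≤ _ := by rw [one_mul, Real.norm_eq_abs]; exact hdiff
    · rw [norm_mul, hexpnorm, mul_one, Complex.norm_real, Real.norm_eq_abs]

lemma aOne_lt_one {n : ℕ} (hn : 2 ≤ n) : aOne n < 1 := by
  have hn2 : (2 : ℝ) ≤ n := by exact_mod_cast hn
  -- (1+1/n)^n < n+1 : from strict Bernoulli max
  have h := max_lt n (by omega) 1 le_rfl (by
    intro h
    rw [eq_div_iff (by linarith)] at h
    linarith)
  rw [aOne]
  rw [one_div, inv_mul_lt_iff₀ (by linarith), mul_one]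
  have h1 : ((n : ℝ) + 1) / n = 1 + 1 / n := by field_simp
  rw [h1]
  -- (1+1/n)^n ≤ exp 1 < 3 ≤ n+1
  have h2 : (1 + 1 / (n : ℝ)) ≤ Real.exp (1 / n) := by
    have := Real.add_one_le_exp (1 / (n : ℝ)); linarith
  have h3 : (1 + 1 / (n : ℝ)) ^ n ≤ Real.exp (1 / n) ^ n := pow_le_pow_left₀ (by positivity) h2 n
  rw [← Real.exp_nat_mul] at h3
  have h4 : (n : ℝ) * (1 / n) = 1 := by field_simp
  rw [h4] at h3
  have := Real.exp_one_lt_d9
  linarith

/-- Regime 1. -/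
lemma regime_one {n : ℕ} (hn : 2 ≤ n) {c : ℂ} (hc : ‖c‖ ^ (n - 1) ≤ 2) :
    ∃ c' : ℂ, dist c' c ≤ (Real.pi + 1) / ((n : ℝ) - 1) ∧ HasAttr n c' := by
  have hn2 : (2 : ℝ) ≤ n := by exact_mod_cast hn
  have hn1 : (0 : ℝ) < (n : ℝ) - 1 := by linarith
  have hnc : ((n - 1 : ℕ) : ℝ) = (n : ℝ) - 1 := by
    rw [Nat.cast_sub (by omega)]; simp
  rcases eq_or_ne c 0 with rfl | hc0
  · exact ⟨0, by simp; positivity, hasAttr_zero hn⟩
  have hcpos : 0 < ‖c‖ := norm_pos_iff.mpr hc0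
  -- choose r
  obtain ⟨r, hr0, hr1, hrne, hrd⟩ : ∃ r : ℝ, 0 < r ∧ r ≤ 1 ∧ r ^ (n - 1) ≠ aOne n ∧
      |r - ‖c‖| ≤ 1 / ((n : ℝ) - 1) := by
    rcases le_or_gt 1 ‖c‖ with h1 | h1
    · refine ⟨1, one_pos, le_rfl, by rw [one_pow]; exact (aOne_lt_one hn).ne', ?_⟩
      have hb := one_add_mul_le_pow (a := ‖c‖ - 1) (by linarith) (n - 1)
      rw [show 1 + (‖c‖ - 1) = ‖c‖ by ring, hnc] at hb
      rw [abs_sub_comm, abs_of_nonneg (by linarith), le_div_iff₀ hn1]
      linarith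
    · by_cases h2 : ‖c‖ ^ (n - 1) = aOne n
      · refine ⟨max (‖c‖ / 2) (‖c‖ - 1 / ((n : ℝ) - 1)), lt_max_of_lt_left (by linarith), ?_, ?_, ?_⟩
        · apply max_le <;> [linarith; linarith [one_div_pos.mpr hn1]]
        · rw [← h2]
          apply ne_of_lt
          apply pow_lt_pow_left₀ _ (le_max_of_le_left (by linarith)) (by omega)
          rw [_root_.max_lt_iff]
          exact ⟨by linarith, by linarith [one_div_pos.mpr hn1]⟩
        · rw [abs_sub_comm, abs_of_nonneg]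
          · linarith [le_max_right (‖c‖ / 2) (‖c‖ - 1 / ((n : ℝ) - 1))]
          · have : max (‖c‖ / 2) (‖c‖ - 1 / ((n : ℝ) - 1)) ≤ ‖c‖ := by
              apply max_le <;> [linarith; linarith [one_div_pos.mpr hn1]]
            linarith
      · exact ⟨‖c‖, hcpos, h1.le, h2, by simp; linarith⟩
  obtain ⟨c', hc', hd⟩ := exists_rot hn c r hr0 hr1
  refine ⟨c', ?_, neg_axis hn (pow_pos hr0 _) (pow_le_one₀ hr0.le hr1) hrne hc'⟩
  calc dist c' c ≤ Real.pi / ((n : ℝ) - 1) + |r - ‖c‖| := hd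
    _ ≤ Real.pi / ((n : ℝ) - 1) + 1 / ((n : ℝ) - 1) := by linarith
    _ = _ := by ring

end Pool.Agent.LeadMultibrot
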