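import Mathlib
import Pool.Agent.lead.Multibrot
import Pool.Agent.lead.MultibrotMain

set_option autoImplicit false
open Filter

namespace Pool.Agent.LeadMultibrot

lemma norm_pow_sub_one_le (w : ℂ) (n : ℕ) : ‖w ^ n - 1‖ ≤ (1 + ‖w - 1‖) ^ n - 1 := by
  have hw : ‖w‖ ≤ 1 + ‖w - 1‖ := by
    calc ‖w‖ = ‖1 + (w - 1)‖ := by congr 1; ring
      _ ≤ ‖(1 : ℂ)‖ + ‖w - 1‖ := norm_add_le _ _
      _ = _ := by simp
  induction n with
  | zero => simp
  | succ k ih =>
    have e : w ^ (k + 1) - 1 = w ^ k * (w - 1) + (w ^ k - 1) := by ring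
    rw [e]
    calc _ ≤ ‖w ^ k * (w - 1)‖ + ‖w ^ k - 1‖ := norm_add_le _ _
      _ ≤ (1 + ‖w - 1‖) ^ k * ‖w - 1‖ + ((1 + ‖w - 1‖) ^ k - 1) := by
          apply add_le_add _ ih
          rw [norm_mul, norm_pow]
          exact mul_le_mul_of_nonneg_right (pow_le_pow_left₀ (norm_nonneg _) hw _) (norm_nonneg _)
      _ = _ := by ring

/-- The region where the second iterate contracts a disc around the critical value. -/
lemma region_two {n : ℕ} (hn : 2 ≤ n) {l : ℂ} (hl2 : ‖l‖ ≤ 2)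
    (hl : ‖1 + l‖ ≤ 1 - 16 * (Real.log n / n)) {c : ℂ} (hc : c ^ (n - 1) = l) : HasAttr n c := by
  have hn2 : (2 : ℝ) ≤ n := by exact_mod_cast hn
  have hn0 : (0 : ℝ) < n := by linarith
  set L : ℝ := Real.log n / n with hL
  have hlog2 : 0.6931471803 < Real.log 2 := Real.log_two_gt_d9
  have hlogn : Real.log 2 ≤ Real.log n := Real.log_le_log (by norm_num) hn2
  have hlognpos : 0 < Real.log n := by linarith
  have hLpos : 0 < L := div_pos hlognpos hn0
  have hL1 : 16 * L ≤ 1 := by linarith [norm_nonneg (1 + l)]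
  have hn11 : (11 : ℝ) ≤ n := by
    rw [hL, ← mul_div_assoc, div_le_one hn0] at hL1
    linarith
  -- radius
  set r : ℝ := 1 / (n : ℝ) ^ 2 with hr
  have hr0 : 0 < r := by positivity
  have hpow : (1 + r) ^ n ≤ 1 + 2 / n := by
    have h1 : 1 + r ≤ Real.exp r := by linarith [Real.add_one_le_exp r]
    have h2 : (1 + r) ^ n ≤ Real.exp (1 / n) := by
      calc (1 + r) ^ n ≤ Real.exp r ^ n := pow_le_pow_left₀ (by positivity) h1 n
        _ = Real.exp (n * r) := by rw [Real.exp_nat_mul]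
        _ = Real.exp (1 / n) := by congr 1; rw [hr]; field_simp
    have h3 : (1 : ℝ) / n ≤ 1 := by rw [div_le_one hn0]; linarith
    have h4 := Real.abs_exp_sub_one_sub_id_le (x := 1 / n) (by rw [abs_of_pos (by positivity)]; exact h3)
    have h5 := (abs_le.mp h4).2
    have h6 : (1 / (n : ℝ)) ^ 2 ≤ 1 / n := by
      rw [sq]; exact mul_le_of_le_one_right (by positivity) h3
    have h7 : 2 / (n : ℝ) = 1 / n + 1 / n := by ring
    rw [h7]; linarith
  let g : ℂ → ℂ := fun w => 1 + l * w ^ n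
  set K : Set ℂ := Metric.closedBall 1 r with hK
  have hwn : ∀ w ∈ K, ‖w‖ ≤ 1 + r := by
    intro w hw
    have : ‖w - 1‖ ≤ r := by simpa [hK, dist_eq_norm] using hw
    calc ‖w‖ = ‖1 + (w - 1)‖ := by congr 1; ring
      _ ≤ ‖(1 : ℂ)‖ + ‖w - 1‖ := norm_add_le _ _
      _ ≤ _ := by simp; exact this
  have hg1 : ∀ w ∈ K, ‖g w‖ ≤ 1 - 10 * L := by
    intro w hw
    have h1 : ‖w - 1‖ ≤ r := by simpa [hK, dist_eq_norm] using hw
    have h2 : ‖w ^ n - 1‖ ≤ 2 / n := by
      refine (norm_pow_sub_one_le w n).trans ?_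
      have : (1 + ‖w - 1‖) ^ n ≤ (1 + r) ^ n := pow_le_pow_left₀ (by positivity) (by linarith) n
      linarith
    have h3 : g w = (1 + l) + l * (w ^ n - 1) := by simp only [g]; ring
    rw [h3]
    calc _ ≤ ‖1 + l‖ + ‖l * (w ^ n - 1)‖ := norm_add_le _ _
      _ ≤ (1 - 16 * L) + 2 * (2 / n) := by
          apply add_le_add hl
          rw [norm_mul]
          exact mul_le_mul hl2 h2 (norm_nonneg _) (by norm_num)
      _ ≤ 1 - 10 * L := by
          have : 2 * (2 / (n : ℝ)) ≤ 6 * L := by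
            rw [hL, ← mul_div_assoc, ← mul_div_assoc]
            apply div_le_div_of_nonneg_right _ hn0.le
            linarith
          linarith
  have hgpow : ∀ w ∈ K, ‖g w‖ ^ (n - 1) ≤ 1 / (n : ℝ) ^ 5 := by
    intro w hw
    have h1 : ‖g w‖ ≤ Real.exp (-(10 * L)) := by
      have := Real.add_one_le_exp (-(10 * L))
      linarith [hg1 w hw]
    calc ‖g w‖ ^ (n - 1) ≤ Real.exp (-(10 * L)) ^ (n - 1) := pow_le_pow_left₀ (norm_nonneg _) h1 _
      _ = Real.exp (((n - 1 : ℕ) : ℝ) * (-(10 * L))) := by rw [Real.exp_nat_mul]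
      _ ≤ Real.exp (-(5 * Real.log n)) := by
          apply Real.exp_le_exp.mpr
          rw [Nat.cast_sub (by omega), Nat.cast_one, hL]
          have h2 : ((n : ℝ) - 1) * (-(10 * (Real.log n / n))) = -(10 * Real.log n) * (((n : ℝ) - 1) / n) := by
            field_simp
          rw [h2]
          have h3 : (1 : ℝ) / 2 ≤ ((n : ℝ) - 1) / n := by
            rw [div_le_div_iff₀ (by norm_num) hn0]; linarith
          nlinarith
      _ = 1 / (n : ℝ) ^ 5 := by
          rw [Real.exp_neg, one_div]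
          congr 1
          rw [show (5 : ℝ) * Real.log n = ((5 : ℕ) : ℝ) * Real.log n by norm_num, Real.exp_nat_mul, Real.exp_log hn0]
  have hn3 : (1331 : ℝ) ≤ (n : ℝ) ^ 3 := by
    calc (1331 : ℝ) = 11 ^ 3 := by norm_num
      _ ≤ _ := pow_le_pow_left₀ (by norm_num) hn11 3
  have hmaps : Set.MapsTo (g ∘ g) K K := by
    intro w hw
    simp only [hK, Metric.mem_closedBall, dist_eq_norm, Function.comp]
    have h1 : g (g w) - 1 = l * (g w) ^ n := by
      show (1 + l * (g w) ^ n) - 1 = _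
      ring
    rw [h1, norm_mul, norm_pow]
    have h2 : ‖g w‖ ≤ 1 := by linarith [hg1 w hw]
    have h3 : ‖g w‖ ^ n ≤ 1 / (n : ℝ) ^ 5 := by
      refine le_trans ?_ (hgpow w hw)
      exact pow_le_pow_of_le_one (norm_nonneg _) h2 (by omega)
    calc ‖l‖ * ‖g w‖ ^ n ≤ 2 * (1 / (n : ℝ) ^ 5) := mul_le_mul hl2 h3 (by positivity) (by norm_num)
      _ = 1 / (n : ℝ) ^ 2 * (2 / (n : ℝ) ^ 3) := by field_simp
      _ ≤ 1 / (n : ℝ) ^ 2 * 1 := by
          apply mul_le_mul_of_nonneg_left _ (by positivity)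
          rw [div_le_one (by positivity)]; linarith
      _ = r := by rw [mul_one]
  have hderg : ∀ w : ℂ, HasDerivAt g (l * ((n : ℂ) * w ^ (n - 1))) w := by
    intro w
    exact ((hasDerivAt_pow n w).const_mul l).const_add 1
  have hder : ∀ w ∈ K, HasDerivWithinAt (g ∘ g)
      ((l * ((n : ℂ) * (g w) ^ (n - 1))) * (l * ((n : ℂ) * w ^ (n - 1)))) K w := by
    intro w _
    exact ((hderg (g w)).comp w (hderg w)).hasDerivWithinAt
  have hbound0 : ∀ w ∈ K, (n : ℝ) ^ 2 * ‖l‖ ^ 2 * (‖w‖ * ‖g w‖) ^ (n - 1) ≤ 1 / 2 := by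
    intro w hw
    have h1 : ‖w‖ ^ (n - 1) ≤ 2 := by
      calc ‖w‖ ^ (n - 1) ≤ (1 + r) ^ (n - 1) := pow_le_pow_left₀ (norm_nonneg _) (hwn w hw) _
        _ ≤ (1 + r) ^ n := pow_le_pow_right₀ (by linarith) (by omega)
        _ ≤ 1 + 2 / n := hpow
        _ ≤ 2 := by
            have : 2 / (n : ℝ) ≤ 1 := by rw [div_le_one hn0]; linarith
            linarith
    have h2 : ‖l‖ ^ 2 ≤ 4 := by nlinarith [norm_nonneg l]
    rw [mul_pow]
    calc (n : ℝ) ^ 2 * ‖l‖ ^ 2 * (‖w‖ ^ (n - 1) * ‖g w‖ ^ (n - 1))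
        ≤ (n : ℝ) ^ 2 * 4 * (2 * (1 / (n : ℝ) ^ 5)) := by
          apply mul_le_mul
          · exact mul_le_mul_of_nonneg_left h2 (by positivity)
          · exact mul_le_mul h1 (hgpow w hw) (by positivity) (by norm_num)
          · positivity
          · positivity
      _ = 8 / (n : ℝ) ^ 3 := by field_simp; norm_num
      _ ≤ 1 / 2 := by
          rw [div_le_div_iff₀ (by positivity) (by norm_num)]
          linarith
  have hlip : LipschitzOnWith (1 / 2 : NNReal) (g ∘ g) K := by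
    apply Convex.lipschitzOnWith_of_nnnorm_hasDerivWithin_le (convex_closedBall _ _) hder
    intro w hw
    rw [← NNReal.coe_le_coe, coe_nnnorm]
    have : ‖(l * ((n : ℂ) * (g w) ^ (n - 1))) * (l * ((n : ℂ) * w ^ (n - 1)))‖ =
        (n : ℝ) ^ 2 * ‖l‖ ^ 2 * (‖w‖ * ‖g w‖) ^ (n - 1) := by
      simp only [norm_mul, norm_pow, Complex.norm_natCast, mul_pow]
      ring
    rw [this]
    simpa using hbound0 w hw
  have hcontr : ContractingWith (1 / 2 : NNReal) (hmaps.restrict (g ∘ g) K K) := by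
    refine ⟨?_, (hlip.mapsToRestrict hmaps)⟩
    rw [← NNReal.coe_lt_coe]; norm_num
  have h1K : (1 : ℂ) ∈ K := by simp [hK, hr0.le]
  obtain ⟨w, hwK, hfix, -, -⟩ := hcontr.exists_fixedPoint' Metric.isClosed_closedBall.isComplete
    hmaps h1K (edist_ne_top _ _)
  have hfix' : g (g w) = w := hfix
  have hconj : ∀ x : ℂ, (c * x) ^ n + c = c * g x := by
    intro x
    have : c ^ n = c * c ^ (n - 1) := by rw [← pow_succ']; congr 1; omega
    rw [mul_pow, this, hc]
    simp only [g]; ring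
  refine hasAttr_two (z := c * w) (y := c * g w) (hconj w) (by rw [hconj, hfix']) ?_
  have hcn : ‖c‖ ^ (n - 1) = ‖l‖ := by rw [← norm_pow, hc]
  have e1 : (‖c * w‖ * ‖c * g w‖) ^ (n - 1) = ‖l‖ ^ 2 * (‖w‖ * ‖g w‖) ^ (n - 1) := by
    rw [norm_mul, norm_mul, show ‖c‖ * ‖w‖ * (‖c‖ * ‖g w‖) = ‖c‖ * ‖c‖ * (‖w‖ * ‖g w‖) by ring,
      mul_pow, mul_pow, hcn]
    ring
  rw [e1, ← mul_assoc]
  linarith [hbound0 w hwK]

/-- bound on the third point of the critical orbit. -/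
lemma third_point {n : ℕ} (hn : 2 ≤ n) {c : ℂ}
    (hc : ¬ Tendsto (fun k : ℕ => ‖(fun z : ℂ => z ^ n + c)^[k] 0‖) atTop atTop)
    (ht : 1 / (n : ℝ) ≤ ‖c‖ ^ (n - 1)) :
    ‖1 + c ^ (n - 1)‖ ^ n ≤ 5 * n := by
  have hn2 : (2 : ℝ) ≤ n := by exact_mod_cast hn
  have hn0 : (0 : ℝ) < n := by linarith
  set l : ℂ := c ^ (n - 1) with hl
  have hconj : ∀ x : ℂ, (c * x) ^ n + c = c * (1 + l * x ^ n) := by
    intro x
    have : c ^ n = c * c ^ (n - 1) := by rw [← pow_succ']; congr 1; omega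
    rw [mul_pow, this, hl]; ring
  have h3 : (fun z : ℂ => z ^ n + c)^[3] 0 = c * (1 + l * (1 + l) ^ n) := by
    have e1 : (0 : ℂ) ^ n + c = c * 1 := by simp [show n ≠ 0 by omega]
    have e2 : (c * 1) ^ n + c = c * (1 + l) := by
      rw [hconj]; simp
    have e3 : (c * (1 + l)) ^ n + c = c * (1 + l * (1 + l) ^ n) := hconj _
    rw [Function.iterate_succ_apply', Function.iterate_succ_apply', Function.iterate_one, e1, e2, e3]
  have hw4 : ‖1 + l * (1 + l) ^ n‖ ≤ 4 := by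
    by_contra hcon
    push Not at hcon
    apply hc
    refine escape_zero hn 3 ?_ ?_
    · rw [h3, norm_mul]
      nlinarith [norm_nonneg c]
    · rw [h3, norm_mul, mul_pow]
      have h5 : (4 : ℝ) ^ (n - 1) < ‖1 + l * (1 + l) ^ n‖ ^ (n - 1) :=
        pow_lt_pow_left₀ hcon (by norm_num) (by omega)
      have h6 : 2 * (n : ℝ) ≤ 4 ^ (n - 1) := by
        have := one_add_mul_le_pow (a := (3 : ℝ)) (by norm_num) (n - 1)
        rw [Nat.cast_sub (by omega)] at this
        norm_num at this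
        linarith
      have hpos : 0 < ‖c‖ ^ (n - 1) := lt_of_lt_of_le (by positivity) ht
      calc (2 : ℝ) = 1 / n * (2 * n) := by field_simp
        _ ≤ ‖c‖ ^ (n - 1) * 4 ^ (n - 1) := mul_le_mul ht h6 (by positivity) hpos.le
        _ < _ := mul_lt_mul_of_pos_left h5 hpos
  have h5 : ‖l‖ * ‖1 + l‖ ^ n ≤ 5 := by
    have : ‖l * (1 + l) ^ n‖ ≤ ‖1 + l * (1 + l) ^ n‖ + ‖(1 : ℂ)‖ := by
      have := norm_sub_le (1 + l * (1 + l) ^ n) 1
      rwa [add_sub_cancel_left] at this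
    rw [norm_mul l, norm_pow (1 + l), norm_one] at this
    linarith
  have hln : ‖l‖ = ‖c‖ ^ (n - 1) := by rw [hl, norm_pow]
  rw [← hln] at ht
  have h7 : 1 / (n : ℝ) * ‖1 + l‖ ^ n ≤ 5 :=
    (mul_le_mul_of_nonneg_right ht (by positivity)).trans h5
  rw [one_div, inv_mul_le_iff₀ hn0] at h7
  linarith

/-- Regime 2. -/
lemma regime_two {n : ℕ} (hn : 2 ≤ n) {c : ℂ}
    (hc : ¬ Tendsto (fun k : ℕ => ‖(fun z : ℂ => z ^ n + c)^[k] 0‖) atTop atTop)
    (ht : 80 * (Real.log n / n) ≤ ‖c‖ ^ (n - 1)) :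
    ∃ c' : ℂ, dist c' c ≤ 80 * Real.log n / ((n : ℝ) ^ 2 * ‖c‖ ^ (n - 1)) ∧ HasAttr n c' := by
  have hn2 : (2 : ℝ) ≤ n := by exact_mod_cast hn
  have hn0 : (0 : ℝ) < n := by linarith
  have hc2 := norm_pow_le_two hn hc
  set L : ℝ := Real.log n / n with hL
  have hlog2 : 0.6931471803 < Real.log 2 := Real.log_two_gt_d9
  have hlogn : Real.log 2 ≤ Real.log n := Real.log_le_log (by norm_num) hn2
  have hlognpos : 0 < Real.log n := by linarith
  have hLpos : 0 < L := div_pos hlognpos hn0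
  have hL40 : L ≤ 1 / 40 := by linarith
  have hn27 : (27 : ℝ) ≤ n := by
    have h1 : Real.log n ≤ n * (1 / 40) := by
      rw [hL, div_le_iff₀ hn0] at hL40; linarith
    linarith
  set l : ℂ := c ^ (n - 1) with hl
  have hln : ‖l‖ = ‖c‖ ^ (n - 1) := by rw [hl, norm_pow]
  have htn : 1 / (n : ℝ) ≤ ‖c‖ ^ (n - 1) := by
    refine le_trans ?_ ht
    rw [hL, ← mul_div_assoc]
    apply div_le_div_of_nonneg_right _ hn0.le
    linarith
  have htpos : 0 < ‖c‖ ^ (n - 1) := lt_of_lt_of_le (by positivity) htn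
  have h3 := third_point hn hc htn
  rw [← hl] at h3
  -- |1 + l| ≤ 1 + 4 L
  have h4 : ‖1 + l‖ ≤ 1 + 4 * L := by
    by_contra hcon
    push Not at hcon
    have h5 : Real.exp (2 * L) ≤ 1 + 4 * L := by
      have h6 := Real.abs_exp_sub_one_sub_id_le (x := 2 * L) (by
        rw [abs_of_pos (by positivity)]; linarith)
      have := (abs_le.mp h6).2
      nlinarith
    have h6 : Real.exp (2 * L) ^ n < ‖1 + l‖ ^ n :=
      pow_lt_pow_left₀ (lt_of_le_of_lt h5 hcon) (Real.exp_pos _).le (by omega)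
    rw [← Real.exp_nat_mul] at h6
    have h7 : (n : ℝ) * (2 * L) = ((2 : ℕ) : ℝ) * Real.log n := by rw [hL]; field_simp; norm_num
    rw [h7, Real.exp_nat_mul, Real.exp_log hn0] at h6
    nlinarith
  -- contract towards -1
  set u : ℂ := -(20 * L : ℝ) * ((1 + l) / l) with hu
  have hl0 : l ≠ 0 := by
    rw [← norm_pos_iff, hln]; exact htpos
  have hl' : l * (1 + u) = l - (20 * L : ℝ) * (1 + l) := by
    rw [hu]; field_simp; ring
  have hun : ‖u‖ ≤ 22 * L / ‖c‖ ^ (n - 1) := by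
    rw [hu, norm_mul, norm_neg, Complex.norm_real, Real.norm_of_nonneg (by positivity), norm_div,
      ← mul_div_assoc, hln]
    apply div_le_div_of_nonneg_right _ htpos.le
    have : 20 * L * ‖1 + l‖ ≤ 20 * L * (1 + 4 * L) := mul_le_mul_of_nonneg_left h4 (by positivity)
    nlinarith
  have hun2 : ‖u‖ ≤ 1 / 2 := by
    refine hun.trans ?_
    rw [div_le_iff₀ htpos]; linarith
  have hreg : ‖1 + l * (1 + u)‖ ≤ 1 - 16 * L := by
    have e1 : 1 + l * (1 + u) = ((1 - 20 * L : ℝ) : ℂ) * (1 + l) := by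
      rw [hl']; push_cast; ring
    rw [e1, norm_mul, Complex.norm_real, Real.norm_of_nonneg (by linarith)]
    calc (1 - 20 * L) * ‖1 + l‖ ≤ (1 - 20 * L) * (1 + 4 * L) :=
          mul_le_mul_of_nonneg_left h4 (by linarith)
      _ ≤ _ := by nlinarith
  have hreg2 : ‖l * (1 + u)‖ ≤ 2 := by
    have : ‖l * (1 + u)‖ ≤ ‖1 + l * (1 + u)‖ + ‖(1 : ℂ)‖ := by
      have := norm_sub_le (1 + l * (1 + u)) 1
      rwa [add_sub_cancel_left] at this
    rw [norm_one] at this
    linarith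
  have h1u : 1 + u ≠ 0 := by
    intro h
    have : ‖u‖ = 1 := by
      have : u = -1 := by linear_combination h
      rw [this]; simp
    linarith
  have hnc : ((n - 1 : ℕ) : ℂ) = (n : ℂ) - 1 := by
    rw [Nat.cast_sub (by omega)]; simp
  have hnc1 : ((n - 1 : ℕ) : ℂ) ≠ 0 := by
    rw [Nat.cast_ne_zero]; omega
  set v : ℂ := Complex.log (1 + u) / ((n - 1 : ℕ) : ℂ) with hv
  have hvn : ‖v‖ ≤ 33 * L / (‖c‖ ^ (n - 1) * ((n : ℝ) - 1)) := by
    rw [hv, norm_div, Complex.norm_natCast, Nat.cast_sub (by omega), Nat.cast_one]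
    rw [← div_div]
    apply div_le_div_of_nonneg_right _ (by linarith)
    refine (Complex.norm_log_one_add_half_le_self hun2).trans ?_
    calc 3 / 2 * ‖u‖ ≤ 3 / 2 * (22 * L / ‖c‖ ^ (n - 1)) := by linarith
      _ = _ := by ring
  have hnm1 : (0 : ℝ) < (n : ℝ) - 1 := by linarith
  have hvn1 : ‖v‖ ≤ 1 := by
    refine hvn.trans ?_
    rw [div_le_one (by positivity)]
    nlinarith
  refine ⟨c * Complex.exp v, ?_, ?_⟩
  · rw [dist_eq_norm]
    have e1 : c * Complex.exp v - c = c * (Complex.exp v - 1) := by ring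
    rw [e1, norm_mul]
    have h8 := Complex.norm_exp_sub_one_le hvn1
    have h9 : ‖c‖ ≤ 27 / 26 := by
      by_contra hcon
      push Not at hcon
      have hb := one_add_mul_le_pow (a := ‖c‖ - 1) (by linarith [norm_nonneg c]) (n - 1)
      rw [show 1 + (‖c‖ - 1) = ‖c‖ by ring, Nat.cast_sub (by omega), Nat.cast_one] at hb
      nlinarith
    calc ‖c‖ * ‖Complex.exp v - 1‖ ≤ 27 / 26 * (2 * (33 * L / (‖c‖ ^ (n - 1) * ((n : ℝ) - 1)))) := by
          apply mul_le_mul h9 _ (norm_nonneg _) (by norm_num)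
          linarith
      _ = (27 / 26 * 66 * (n / ((n : ℝ) - 1))) * (Real.log n / ((n : ℝ) ^ 2 * ‖c‖ ^ (n - 1))) := by
          rw [hL]; field_simp; ring
      _ ≤ 80 * (Real.log n / ((n : ℝ) ^ 2 * ‖c‖ ^ (n - 1))) := by
          apply mul_le_mul_of_nonneg_right _ (by positivity)
          have : (n : ℝ) / ((n : ℝ) - 1) ≤ 27 / 26 := by
            rw [div_le_div_iff₀ hnm1 (by norm_num)]; linarith
          linarith
      _ = _ := by ring
  · apply region_two hn hreg2 hreg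
    rw [mul_pow, ← hl, ← Complex.exp_nat_mul]
    congr 1
    rw [hv, mul_div_cancel₀ _ hnc1, Complex.exp_log h1u]

end Pool.Agent.LeadMultibrot
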